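import Pool.Agent.X120.OR.One

/-!
# The Mumford–Tate conjecture for `H^2` of the fibres over `b^(-t)` of families of surfaces with `p_g = 2` and big monodromy

Let `f : X → S` be a family of smooth projective varieties over an open part `S` of the projective line, defined over `ℚ` (or over a number field), with `H^2(X_s, ℚ(1)) = T_s ⊕ N`, where `N` is a constant part
which consists of algebraic classes, and `T`, of rank `n`, is a direct factor with `h^(2,0)(T_s) = 2` (all of `H^(2,0)(X_s)`, if `p_g = 2`), such that the differential Galois group of the Picard–Fuchs system of `T` (the Zariski closure of the monodromy group,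
if the monodromy is not finite) contains the orthogonal group of the form on `T`, for example a Lefschetz pencil of surfaces with `p_g = 2` on a threefold, `T` the vanishing cohomology. Let `ω_0`, `ω_1` be a basis of the relative differential forms of degree two over `ℚ(x)`.
We suppose that the period matrix near `x = 0` is `L(log(1/x)) P(x)`, where the entries of `P` are polynomials with any complex coefficients in a system of G-functions with rational coefficients (solutions of a differential
system with a regular singularity with rational exponents at infinity), the entries of `L(u)` are polynomials, and `L(u)` is invertible. If there is no degeneration at `x = 0` this is so with `L = 1`; for a family over a number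
field one uses the direct sum of the conjugates of the differential system, which is defined over `ℚ`; `x = 0` may also be a point with unipotent monodromy.

**Theorem.** Let `b ≥ 2` be an integer. There is a constant `K`, which depends only on the G-functions, `b`, `n` and on a bound `e` for the degrees of the polynomials, such that for all such families and all `N ≥ 2`: for all but at
most `K log N` of the `t ≤ N` the Lie algebra of the Mumford–Tate group of `H^2(X_t, ℚ(1))`, `X_t` the fibre over `x = b^(-t)`, is the orthogonal Lie algebra `so(T_t)`, and for all primes `ℓ` such that the Lie algebra of the `ℓ`-adic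
image of the Galois group is `so(T_t)` over `ℚ_ℓ` the Mumford–Tate conjecture (Q1) holds for `X_t` at `ℓ` (on the level of Lie algebras; the two group schemes are the Zariski closures of their connected generic fibres).

The assumption on the Galois group is known for all but finitely many of the `t`, for each `ℓ` (Cadoret and Tamagawa, a uniform open image theorem for `ℓ`-adic representations, applied to the arithmetic monodromy of `T`); so for each `ℓ` the Mumford–Tate conjecture
holds for all but `K log N + C_ℓ` of the fibres. What is new is the statement on the Mumford–Tate group: it was known for `t` outside a countable union of analytic sets only (the Hodge locus). For `h^(2,0) > 1` it is not known in general that the Hodge classes in tensor powers of `H^2`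
are absolute Hodge, and the Mumford–Tate conjecture is known for `h^(2,0) = 1` (André, Moonen, under a condition on the moduli) and for some surfaces with `p_g = 2` of maximal Albanese dimension (Commelin and Penegini); Moonen has results for families with larger `p_g` with
additional endomorphisms.

Proof. The eigenvalue `2` of `ad` of the Hodge operator on `so(T)` has multiplicity one, with eigenvector `ω_0 ∧ ω_1`. If the Lie algebra of the Mumford–Tate group is not `so(T)`, then there is a nonzero rational skew form on `T` with value zero at `(ω_0, ω_1)`.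
By the counting theorem on values of G-functions on geometric sequences (`Pool.Agent.X120.GS`) for all but few points this relation holds on the orbit of the pair `(ω_0, ω_1)` under the orthogonal group, and this is not possible.
-/

set_option autoImplicit false

open Matrix

open Pool.Agent.X120.BM Pool.Agent.X120.NF Pool.Agent.X120.OR

namespace Pool.Agent.Results.MP_6369ef_ag.OrthogonalFamiliesAtPowers

section
variable {n r : ℕ}

/-- the matrices of the endomorphisms of `H = T ⊕ N`, where `T` has rank `n` and `N` has rank `r` -/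
abbrev Mat (n r : ℕ) (E : Type) : Type := Matrix (Fin n ⊕ Fin r) (Fin n ⊕ Fin r) E

/-- a rational Lie algebra of endomorphisms of `H` -/
def IsLie (V : Submodule ℚ (Mat n r ℚ)) : Prop := ∀ X ∈ V, ∀ Y ∈ V, X * Y - Y * X ∈ V

/-- the extension of scalars of a rational space of endomorphisms -/
def extend (E : Type) [Field E] [Algebra ℚ E] (V : Submodule ℚ (Mat n r ℚ)) : Submodule E (Mat n r E) :=
  Submodule.span E ((fun X : Mat n r ℚ => X.map (algebraMap ℚ E)) '' V)

/-- The Lie algebra of the Mumford–Tate group of `H`: the smallest rational Lie algebra whose complexification contains the operator with the eigenvalue `p - 1` on `H^(p,2-p)` (`Φ` is the Hodge operator of `T`, `N` is of type `(1,1)`). -/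
def mumfordTate (r : ℕ) (Φ : Matrix (Fin n) (Fin n) ℂ) : Submodule ℚ (Mat n r ℚ) :=
  sInf {V | IsLie V ∧ Matrix.fromBlocks (Φ - 1) 0 0 0 ∈ extend ℂ V}

/-- the Lie algebra `so(T)` over `E`, for the form `A` on `T`; it acts trivially on `N` -/
def so (E : Type) [Field E] [Algebra ℚ E] (r : ℕ) (A : Matrix (Fin n) (Fin n) ℚ) : Submodule E (Mat n r E) where
  carrier := {Z | ∃ X : Matrix (Fin n) (Fin n) E, X * A.map (algebraMap ℚ E) + A.map (algebraMap ℚ E) * Xᵀ = 0 ∧ Z = Matrix.fromBlocks X 0 0 0}
  add_mem' := by
    rintro _ _ ⟨X, hX, rfl⟩ ⟨Y, hY, rfl⟩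
    exact ⟨X + Y, (orthLie E A).add_mem hX hY, by rw [Matrix.fromBlocks_add, add_zero, add_zero, add_zero]⟩
  zero_mem' := ⟨0, (orthLie E A).zero_mem, by rw [Matrix.fromBlocks_zero]⟩
  smul_mem' := by
    rintro c _ ⟨X, hX, rfl⟩
    exact ⟨c • X, (orthLie E A).smul_mem c hX, by rw [Matrix.fromBlocks_smul, smul_zero, smul_zero, smul_zero]⟩

/-- The statement for the fibre over `x = b^(-t)`. For all symmetric forms `A` and Hodge structures `H^(p,2-p)` on `T` with the first bilinear relation such that the two period vectors are a basis of `H^(2,0)`: the Lie algebra of the Mumford–Tate group is `so(T)`,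
and for all fields `E` (for example `ℚ_ℓ`) and all Lie algebras `𝔤` (the Lie algebra of the Zariski closure of the image of the Galois group), if `𝔤` is `so(T)` over `E` then it is the extension of scalars of the Lie algebra of the Mumford–Tate group. -/
def MumfordTateConjecture {G : GSystem} {n e : ℕ} (F : OPeriods G n e) (r b t : ℕ) : Prop :=
  ∀ (A : Matrix (Fin n) (Fin n) ℚ) (H : ℕ → Submodule ℂ (Fin n → ℂ)), Aᵀ = A → IsPolarized 2 A H →
    LinearIndependent ℂ ![F.vec b t 0, F.vec b t 1] → H 2 = Submodule.span ℂ {F.vec b t 0, F.vec b t 1} →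
    ∀ Φ : Matrix (Fin n) (Fin n) ℂ, IsHodgeOperator 2 H Φ →
      mumfordTate r Φ = so ℚ r A ∧
      ∀ (E : Type) [Field E] [Algebra ℚ E] (𝔤 : Submodule E (Mat n r E)), 𝔤 = so E r A → extend E (mumfordTate r Φ) = 𝔤

theorem lie_mul (X Y : Matrix (Fin n) (Fin n) ℚ) : (Matrix.fromBlocks X 0 0 0 : Mat n r ℚ) * Matrix.fromBlocks Y 0 0 0 -
    Matrix.fromBlocks Y 0 0 0 * Matrix.fromBlocks X 0 0 0 = Matrix.fromBlocks (X * Y - Y * X) 0 0 0 := by
  rw [Matrix.fromBlocks_multiply, Matrix.fromBlocks_multiply]
  simp only [Matrix.mul_zero, Matrix.zero_mul, add_zero]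
  ext i j
  rcases i with i | i <;> rcases j with j | j <;> simp [Matrix.fromBlocks]

theorem ph_mem {E : Type} [Field E] [Algebra ℚ E] {V : Submodule ℚ (Mat n r ℚ)} {Z : Mat n r E} (hZ : Z ∈ extend E V)
    (φ : E →ₗ[ℚ] ℚ) : Z.map φ ∈ V := by
  unfold extend at hZ
  induction hZ using Submodule.span_induction generalizing φ with
  | mem x hx =>
    obtain ⟨Y, hY, rfl⟩ := hx
    have h1 : (Y.map (algebraMap ℚ E)).map φ = φ 1 • Y := by
      ext i j
      show φ (algebraMap ℚ E (Y i j)) = φ 1 * Y i j
      rw [Algebra.algebraMap_eq_smul_one, map_smul, smul_eq_mul, mul_comm]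
    rw [h1]
    exact V.smul_mem _ hY
  | zero =>
    have h1 : (0 : Mat n r E).map φ = 0 := by
      ext i j
      exact map_zero φ
    rw [h1]
    exact V.zero_mem
  | add x y _ _ hx hy =>
    have h1 : (x + y).map φ = x.map φ + y.map φ := by
      ext i j
      exact map_add φ _ _
    rw [h1]
    exact V.add_mem (hx φ) (hy φ)
  | smul a x _ hx => exact hx (phS φ a)

/-- the inclusion of the endomorphisms of `T` -/
def incl (E : Type) [Field E] (n r : ℕ) : Matrix (Fin n) (Fin n) E →ₗ[E] Mat n r E where
  toFun X := Matrix.fromBlocks X 0 0 0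
  map_add' X Y := by rw [Matrix.fromBlocks_add, add_zero, add_zero, add_zero]
  map_smul' c X := by rw [RingHom.id_apply, Matrix.fromBlocks_smul, smul_zero, smul_zero, smul_zero]

theorem incl_extend {E : Type} [Field E] [Algebra ℚ E] {V₀ : Submodule ℚ (Matrix (Fin n) (Fin n) ℚ)} {V : Submodule ℚ (Mat n r ℚ)}
    (h : ∀ X ∈ V₀, Matrix.fromBlocks X 0 0 0 ∈ V) {Z : Matrix (Fin n) (Fin n) E} (hZ : Z ∈ extend₀ E V₀) :
    Matrix.fromBlocks Z 0 0 0 ∈ extend E V := by
  unfold extend₀ at hZ
  have h1 : incl E n r Z ∈ (Submodule.span E ((fun X : Matrix (Fin n) (Fin n) ℚ => X.map (algebraMap ℚ E)) '' V₀)).map (incl E n r) := ⟨Z, hZ, rfl⟩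
  rw [Submodule.map_span] at h1
  refine Submodule.span_mono ?_ h1
  rintro _ ⟨_, ⟨X, hX, rfl⟩, rfl⟩
  refine ⟨Matrix.fromBlocks X 0 0 0, h X hX, ?_⟩
  show (Matrix.fromBlocks X 0 0 0 : Mat n r ℚ).map (algebraMap ℚ E) = Matrix.fromBlocks (X.map (algebraMap ℚ E)) 0 0 0
  rw [Matrix.fromBlocks_map, Matrix.map_zero _ (map_zero _), Matrix.map_zero _ (map_zero _), Matrix.map_zero _ (map_zero _)]

theorem extend_so (E : Type) [Field E] [Algebra ℚ E] (A : Matrix (Fin n) (Fin n) ℚ) : extend E (so ℚ r A) = so E r A := by
  refine le_antisymm ?_ ?_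
  · unfold extend
    rw [Submodule.span_le]
    rintro _ ⟨_, ⟨X, hX, rfl⟩, rfl⟩
    have h1 : X.map (algebraMap ℚ E) ∈ extend₀ E (orthLie ℚ A) := Submodule.subset_span ⟨X, hX, rfl⟩
    rw [extend_orth] at h1
    refine ⟨X.map (algebraMap ℚ E), h1, ?_⟩
    show (Matrix.fromBlocks X 0 0 0 : Mat n r ℚ).map (algebraMap ℚ E) = _
    rw [Matrix.fromBlocks_map, Matrix.map_zero _ (map_zero _), Matrix.map_zero _ (map_zero _), Matrix.map_zero _ (map_zero _)]
  · rintro _ ⟨X, hX, rfl⟩
    have h1 : X ∈ extend₀ E (orthLie ℚ A) := by rw [extend_orth]; exact hX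
    exact incl_extend (V := so ℚ r A) (fun Y hY => ⟨Y, hY, rfl⟩) h1

theorem mt_eq {G : GSystem} {e : ℕ} {F : OPeriods G n e} {b t : ℕ} (hgen : Generic F b t) {A : Matrix (Fin n) (Fin n) ℚ} {H : ℕ → Submodule ℂ (Fin n → ℂ)}
    (hA : Aᵀ = A) (hH : IsPolarized 2 A H) (hind : LinearIndependent ℂ ![F.vec b t 0, F.vec b t 1])
    (hspan : H 2 = Submodule.span ℂ {F.vec b t 0, F.vec b t 1}) {Φ : Matrix (Fin n) (Fin n) ℂ} (hop : IsHodgeOperator 2 H Φ) :
    mumfordTate r Φ = so ℚ r A := by
  have htop : IsTop 2 H (F.vec b t) := by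
    refine ⟨hind, 2, 2, le_refl _, le_refl _, by norm_num, ?_, by rw [sup_idem, hspan], fun h => absurd h (lt_irrefl _), ?_⟩
    · rw [hspan]
      exact Submodule.subset_span (by simp)
    · intro p' h1 h2 h3
      omega
  have hΦ : Φ - 1 ∈ orthLie ℂ A := by
    have h2 := op_form hH hop
    show (Φ - 1) * A.map (algebraMap ℚ ℂ) + A.map (algebraMap ℚ ℂ) * (Φ - 1)ᵀ = 0
    rw [← toC_alg, Matrix.sub_mul, Matrix.transpose_sub, Matrix.mul_sub, Matrix.transpose_one, Matrix.one_mul, Matrix.mul_one]
    have h3 : Φ * toC A - toC A + (toC A * Φᵀ - toC A) = (Φ * toC A + toC A * Φᵀ) - (2 : ℂ) • toC A := by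
      rw [two_smul]
      abel
    rw [h3, h2]
    push_cast
    exact sub_self _
  refine le_antisymm (sInf_le ⟨?_, ?_⟩) ?_
  · rintro _ ⟨X, hX, rfl⟩ _ ⟨Y, hY, rfl⟩
    refine ⟨X * Y - Y * X, ?_, lie_mul X Y⟩
    exact orthLie_lie X hX Y hY
  · rw [← extend_orth] at hΦ
    exact incl_extend (V := so ℚ r A) (fun Y hY => ⟨Y, hY, rfl⟩) hΦ
  · refine le_sInf ?_
    rintro V ⟨hlie, hV⟩ _ ⟨X, hX, rfl⟩
    have h1 := hgen 2 A H hA hH htop Φ hop (V.comap (incl ℚ n r)) (by
      intro Y hY Z hZ
      show incl ℚ n r (Y * Z - Z * Y) ∈ V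
      have h2 := hlie _ hY _ hZ
      have h3 : incl ℚ n r Y * incl ℚ n r Z - incl ℚ n r Z * incl ℚ n r Y = incl ℚ n r (Y * Z - Z * Y) := lie_mul Y Z
      rwa [h3] at h2) 1 (by
      refine mem_of_phM fun φ => ?_
      show incl ℚ n r _ ∈ V
      have h2 := ph_mem hV φ
      have h3 : (Matrix.fromBlocks (Φ - 1) 0 0 0 : Mat n r ℂ).map φ = incl ℚ n r ((Φ - ((1 : ℚ) : ℂ) • (1 : Matrix (Fin n) (Fin n) ℂ)).map φ) := by
        rw [Rat.cast_one, one_smul, Matrix.fromBlocks_map, Matrix.map_zero _ (map_zero _), Matrix.map_zero _ (map_zero _), Matrix.map_zero _ (map_zero _)]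
        rfl
      rwa [h3] at h2) X (mem_orthLie.1 hX)
    exact h1

end

/-- **The theorem.** -/
theorem result (G : GSystem) (n r e b : ℕ) (hb : 2 ≤ b) :
    ∃ K : ℝ, 0 ≤ K ∧ ∀ F : OPeriods G n e, ∀ N : ℕ, 2 ≤ N →
      (({t : ℕ | 1 ≤ t ∧ t ≤ N ∧ ¬ MumfordTateConjecture F r b t}.ncard : ℕ) : ℝ) ≤ K * Real.log N := by
  obtain ⟨K, hK, hcount⟩ := count_generic G n e b hb
  refine ⟨K, hK, fun F N hN => le_trans ?_ (hcount F N hN)⟩
  refine Nat.cast_le.2 (Set.ncard_le_ncard ?_ ((Set.finite_Iic N).subset fun t ht => ht.2.1))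
  rintro t ⟨ht1, htN, hnot⟩
  refine ⟨ht1, htN, fun hgen => hnot ?_⟩
  intro A H hA hH hind hspan Φ hop
  have h1 := mt_eq (r := r) hgen hA hH hind hspan hop
  refine ⟨h1, fun E _ _ 𝔤 h𝔤 => ?_⟩
  rw [h1, h𝔤, extend_so]

end Pool.Agent.Results.MP_6369ef_ag.OrthogonalFamiliesAtPowers
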