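import Pool.Agent.X292.TG.Bun

/-!
# Towards the Mumford–Tate conjecture for second cohomology

In a family, the transcendental part of `H²(X, ℚ(1))` is an orthogonal sum of polarized variations
`N i` on which the (topological) fundamental group `P` acts by isometries.  The group `G` is the
Mumford–Tate group of a Hodge generic fibre (`F = ℚ`) or the Galois group of the generic fibre
(`F = ℚ_ℓ` for one prime `ℓ`); it normalizes the connected monodromy group.
-/

namespace Pool.Agent.Results.MP_6369ef_ag.RankOneSquareMonodromy

open Module Pool.Agent.X292.TG

/-- Let `N i` be finitely many representations of `P` with nondegenerate symmetric forms on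
finite-dimensional `k`-spaces (`k` of characteristic zero) of dimension `3` or `≥ 5`, no two of them of
dimension `8`, such that for every `i` either some element `g` of `P` has
`(g - 1) ^ 3 = 0 ≠ (g - 1) ^ 2` and `g - 1` of rank two, or some element `g` has `g - 1` of
rank one and some element has infinite order.  Let `G` act by isometries and strongly irreducibly on
the spaces `F ⊗ N i` over ONE extension `F` of `k`, respecting the multilinear forms over `F` which
are fixed by a subgroup of finite index of `P`, and without nonzero maps between different spaces
which commute with `G` up to signs.  Then over EVERY extension `K` of `k` every family of skew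
operators of the `K ⊗ N i` kills every multilinear map of the `K ⊗ N i` which is fixed by a subgroup
of finite index of `P`. -/
theorem result {k : Type} [Field k] [CharZero k] {P : Type} [Group P] {ι : Type} [Finite ι]
    (N : ι → FormRep k P) (hfin : ∀ i, FiniteDimensional k (N i).V)
    (hN : ∀ i, GoodMonodromy (N i).B (N i).ρ)
    (h8 : ∀ i j, i ≠ j → finrank k (N i).V = 8 → finrank k (N j).V ≠ 8)
    {F : Type} [Field F] [Algebra k F] {G : Type} [Group G]
    (σ : ∀ i, G →* (((N i).over F).V →ₗ[F] ((N i).over F).V))
    (hσ : BigGroup (fun i => (N i).over F) σ)
    (K : Type) [Field K] [Algebra k K] : BigOrthogonal fun i => (N i).over K :=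
  bundled N hfin hN h8 σ hσ K

end Pool.Agent.Results.MP_6369ef_ag.RankOneSquareMonodromy
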