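import Pool.Agent.X290.Reg.Gen2
/-!
# `2`-adic monodromy over `ℚ` is generated by few Frobenius elements

Let `S` be a set of prime numbers and `T` a set of odd primes such that every squarefree integer
`d ≠ 1` whose prime divisors are in `S` or equal to `2` is not a square modulo some `ℓ` in `T`; if `S`
is finite such sets with `|S| + 2` elements exist, for instance `T = {3, 5}` for `S = ∅`. Let `A` be a
Noetherian local ring of residue characteristic `2` (for instance `ℤ_2`) and
`R : Gal(ℚbar/ℚ) → GL_m(A)` continuous, unramified outside `2` and `S`, with unipotent reduction; for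
instance the cohomology of a smooth projective variety over `ℚ` with good reduction outside `2` and
`S`, if the Galois group acts on the reduction modulo `2` through a `2`-group. Then the image of `R`
is topologically generated by arbitrary Frobenius elements at the primes in `T`, and over every field
that contains `A` it has the same Zariski closure as the group generated by these elements.
-/

set_option autoImplicit false

open NumberField Matrix IsLocalRing

namespace Pool.Agent.Results.MP_6369ef_ag.TwoAdicMonodromyFromFrobenius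

/-- The absolute Galois group of `ℚ`. -/
abbrev G : Type := Gal(AlgebraicClosure ℚ/ℚ)

/-- The ring of all algebraic integers. -/
abbrev Z : Type := 𝓞 (AlgebraicClosure ℚ)

/-- The primes in `T` separate the quadratic fields which are unramified outside `2` and `S`: every
squarefree integer `d ≠ 1` with prime divisors in `S` or equal to `2` is not a square modulo some
element of `T`. -/
def Separates (S T : Set ℕ) : Prop :=
  ∀ d : ℤ, Squarefree d → d ≠ 1 → (∀ l : ℕ, l.Prime → (l : ℤ) ∣ d → l = 2 ∨ l ∈ S) →
    ∃ ℓ ∈ T, ¬ IsSquare (d : ZMod ℓ)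

/-- The conditions on the ring of coefficients. -/
def Coefficients (A : Type) [CommRing A] [IsLocalRing A] [TopologicalSpace A] : Prop :=
  IsNoetherianRing A ∧ IsAdic (maximalIdeal A) ∧ (2 : A) ∈ maximalIdeal A

variable {A : Type} [CommRing A] {m : ℕ}

/-- `R` is continuous and unramified at all primes that do not lie above `2` or an element of `S`,
and the reduction of `R g` is unipotent for all `g`. -/
def Representation [IsLocalRing A] [TopologicalSpace A] (S : Set ℕ) (R : G →* GL (Fin m) A) : Prop :=
  Continuous R ∧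
  (∀ Q : Ideal Z, Q.IsMaximal → (2 : Z) ∉ Q → (∀ r ∈ S, r.Prime → (r : Z) ∉ Q) →
    ∀ τ : G, (∀ x : Z, τ • x - x ∈ Q) → R τ = 1) ∧
  ∀ g, IsNilpotent ((R g : Matrix (Fin m) (Fin m) A).map (residue A) - 1)

/-- `φ` is a Frobenius element at a prime ideal above `ℓ`. -/
def IsFrobenius (ℓ : ℕ) (φ : G) : Prop :=
  ∃ Q : Ideal Z, Q.IsMaximal ∧ (ℓ : Z) ∈ Q ∧ ∀ x : Z, φ • x - x ^ ℓ ∈ Q

/-- The image of `R` is topologically generated by the image of `D`. -/
def TopologicallyGenerated [TopologicalSpace A] (R : G →* GL (Fin m) A) (D : Set G) : Prop :=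
  ∀ g, ∃ h ∈ (Subgroup.closure D).topologicalClosure, R h = R g

/-- Over every field `L` which contains `A`, a polynomial in the `m ^ 2` matrix entries that vanishes
on the group generated by `R(D)` vanishes on the image of `R`. -/
def SameZariskiClosure (R : G →* GL (Fin m) A) (D : Set G) : Prop :=
  ∀ (L : Type) [Field L] [Algebra A L] (f : MvPolynomial (Fin m × Fin m) L),
    (∀ h ∈ Subgroup.closure D, MvPolynomial.eval (fun x => algebraMap A L (R h x.1 x.2)) f = 0) →
      ∀ g, MvPolynomial.eval (fun x => algebraMap A L (R g x.1 x.2)) f = 0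

theorem separates_aux (q : ℕ) (hq : q.Prime) (hq2 : q ≠ 2) (T : Set ℕ)
    (h1 : ∀ d ∈ ({-1, 2, -2, (q : ℤ), -(q : ℤ), 2 * (q : ℤ), -(2 * (q : ℤ))} : Set ℤ),
      ∃ ℓ ∈ T, ¬ IsSquare (d : ZMod ℓ)) : Separates {q} T := by
  intro d hd hd1 h
  have h5 := Pool.Agent.X290.FM2.nat_sqfree hq hq2 (Int.squarefree_natAbs.2 hd) (fun l hl hld => by
    rcases h l hl (Int.natCast_dvd.2 hld) with h | h
    · exact Or.inl h
    · exact Or.inr h)
  apply h1
  simp only [Set.mem_insert_iff, Set.mem_singleton_iff]
  omega

/-- The theorem. -/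
theorem result :
    (∀ S T : Set ℕ, (∀ ℓ ∈ T, ℓ.Prime ∧ ℓ ≠ 2) → Separates S T →
      ∀ (m : ℕ) (A : Type) [CommRing A] [IsLocalRing A] [TopologicalSpace A], Coefficients A →
      ∀ R : G →* GL (Fin m) A, Representation S R →
      ∀ φ : ℕ → G, (∀ ℓ ∈ T, IsFrobenius ℓ (φ ℓ)) →
        TopologicallyGenerated R (φ '' T) ∧ SameZariskiClosure R (φ '' T)) ∧
    Separates ∅ {3, 5} ∧ Separates {3} {5, 7, 13} ∧ Separates {5} {3, 7, 11} := by
  refine ⟨?_, ?_, ?_, ?_⟩
  · rintro S T hT hsep m A _ _ _ ⟨_, hA, h2A⟩ R ⟨hR, hur, hres⟩ φ hφ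
    exact Pool.Agent.X290.Reg.mainQ hT hsep hA h2A R hR hur hres φ hφ
  · intro d hd hd1 h
    have h5 := Pool.Agent.X290.FM2.nat_sqfree (q := 3) Nat.prime_three (by norm_num)
      (Int.squarefree_natAbs.2 hd) (fun l hl hld => by
        rcases h l hl (Int.natCast_dvd.2 hld) with h | h
        · exact Or.inl h
        · exact absurd h (Set.notMem_empty l))
    have h3 : ¬ (3 : ℤ) ∣ d := by
      intro h3
      rcases h 3 Nat.prime_three (by exact_mod_cast h3) with h | h
      · omega
      · exact absurd h (Set.notMem_empty 3)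
    have h6 : d = -1 ∨ d = 2 ∨ d = -2 := by omega
    rcases h6 with rfl | rfl | rfl
    · exact ⟨3, by simp, by decide⟩
    · exact ⟨3, by simp, by decide⟩
    · exact ⟨5, by simp, by decide⟩
  · refine separates_aux 3 Nat.prime_three (by norm_num) _ ?_
    intro d hd
    simp only [Set.mem_insert_iff, Set.mem_singleton_iff] at hd
    rcases hd with rfl | rfl | rfl | rfl | rfl | rfl | rfl
    · exact ⟨7, by simp, by decide⟩
    · exact ⟨5, by simp, by decide⟩
    · exact ⟨5, by simp, by decide⟩
    · exact ⟨5, by simp, by decide⟩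
    · exact ⟨5, by simp, by decide⟩
    · exact ⟨7, by simp, by decide⟩
    · exact ⟨13, by simp, by decide⟩
  · refine separates_aux 5 Nat.prime_five (by norm_num) _ ?_
    intro d hd
    simp only [Set.mem_insert_iff, Set.mem_singleton_iff] at hd
    rcases hd with rfl | rfl | rfl | rfl | rfl | rfl | rfl
    · exact ⟨3, by simp, by decide⟩
    · exact ⟨3, by simp, by decide⟩
    · exact ⟨7, by simp, by decide⟩
    · exact ⟨3, by simp, by decide⟩
    · exact ⟨11, by simp, by decide⟩
    · exact ⟨7, by simp, by decide⟩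
    · exact ⟨3, by simp, by decide⟩

end Pool.Agent.Results.MP_6369ef_ag.TwoAdicMonodromyFromFrobenius
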